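import Pool.Agent.Helper64.Gow10

set_option autoImplicit false

namespace Pool.Agent.Results.MP_0c755a_co.QuadraticOrder

open Finset
open scoped Classical

/-- general position: no three distinct points of `S` lie on a line -/
def GenPos (S : Finset (EuclideanSpace ℝ (Fin 2))) : Prop :=
  ∀ a ∈ S, ∀ b ∈ S, ∀ c ∈ S, a ≠ b → a ≠ c → b ≠ c →
    ¬ Collinear ℝ ({a, b, c} : Set (EuclideanSpace ℝ (Fin 2)))

/-- every finite planar set with at least `N` points contains `n` collinear points or `n` points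
in general position -/
def Forces (n N : ℕ) : Prop :=
  ∀ P : Finset (EuclideanSpace ℝ (Fin 2)), N ≤ P.card →
    (∃ S ⊆ P, S.card = n ∧ Collinear ℝ (S : Set (EuclideanSpace ℝ (Fin 2)))) ∨
      (∃ S ⊆ P, S.card = n ∧ GenPos S)

/-- the least `N` such that every planar set of at least `N` points contains `n` collinear points or
`n` points in general position -/
noncomputable def f (n : ℕ) : ℕ := sInf {N | Forces n N}

open Pool.Agent.Helper64.Gow in
lemma upper : ∃ C : ℕ, ∀ n : ℕ, 1 ≤ n → Forces n (C * n ^ 2) := by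
  obtain ⟨N0, hN0⟩ := main_coord
  refine ⟨2 ^ 30 + N0, ?_⟩
  intro n hn P hP
  by_cases hcol : ∃ S ⊆ P, S.card = n ∧ Collinear ℝ (S : Set (EuclideanSpace ℝ (Fin 2)))
  · exact Or.inl hcol
  right
  push Not at hcol
  have hcard : (P.image cd).card = P.card := card_image_of_injective _ cd_inj
  have hn2 : 1 ≤ n ^ 2 := Nat.one_le_pow _ _ hn
  have hP1 : N0 ≤ P.card := by
    refine le_trans ?_ hP
    calc N0 ≤ 2 ^ 30 + N0 := Nat.le_add_left _ _
      _ = (2 ^ 30 + N0) * 1 := (mul_one _).symm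
      _ ≤ (2 ^ 30 + N0) * n ^ 2 := Nat.mul_le_mul_left _ hn2
  have hP2 : 2 ^ 30 * n ^ 2 ≤ P.card := by
    refine le_trans ?_ hP
    exact Nat.mul_le_mul_right _ (Nat.le_add_right _ _)
  obtain ⟨S, hS1, hS2, hS3⟩ := hN0 (P.image cd) (by rw [hcard]; exact hP1) (by
    intro a' ha' b' hb' hab'
    rw [mem_image] at ha' hb'
    obtain ⟨a, ha, rfl⟩ := ha'
    obtain ⟨b, hb, rfl⟩ := hb'
    have hab : a ≠ b := fun h => hab' (by rw [h])
    rw [hcard]
    have h1 : (P.filter (fun c => col (cd a) (cd b) (cd c))).card < n := by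
      by_contra hcon
      push Not at hcon
      obtain ⟨T, hT1, hT2⟩ := exists_subset_card_eq hcon
      apply hcol T (hT1.trans (filter_subset _ _)) hT2
      have h2 : Collinear ℝ ((P.filter (fun c => col (cd a) (cd b) (cd c)) : Finset _) :
          Set (EuclideanSpace ℝ (Fin 2))) := by
        apply collinear_of_col hab (by
          rw [mem_coe, mem_filter]
          exact ⟨ha, col_self1 _ _⟩)
        intro c hc
        exact (mem_filter.1 (mem_coe.1 hc)).2
      exact h2.subset (by exact_mod_cast hT1)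
    have h3 : ((P.image cd).filter (fun c => col (cd a) (cd b) c)).card
        ≤ (P.filter (fun c => col (cd a) (cd b) (cd c))).card := by
      refine le_trans (card_le_card (t := (P.filter (fun c => col (cd a) (cd b) (cd c))).image cd) ?_) card_image_le
      intro q hq
      rw [mem_filter, mem_image] at hq
      obtain ⟨⟨c, hc, rfl⟩, h⟩ := hq
      exact mem_image_of_mem _ (mem_filter.2 ⟨hc, h⟩)
    calc ((P.image cd).filter (fun c => col (cd a) (cd b) c)).card ^ 2 ≤ n ^ 2 :=
          Nat.pow_le_pow_left (h3.trans h1.le) 2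
      _ ≤ 2 ^ 30 * n ^ 2 := Nat.le_mul_of_pos_left _ (by norm_num)
      _ ≤ P.card := hP2)
  rw [hcard] at hS3
  have hSn : n ≤ S.card := by
    have h1 : ((2 ^ 30 * n ^ 2 : ℕ) : ℝ) ≤ (2 ^ 15 * (S.card : ℝ)) ^ 2 := by
      refine le_trans ?_ hS3
      exact_mod_cast hP2
    push_cast at h1
    have h2 : (n : ℝ) ^ 2 ≤ (S.card : ℝ) ^ 2 := by nlinarith
    have h3 : (n : ℝ) ≤ S.card := le_of_sq_le_sq h2 (by positivity)
    exact_mod_cast h3
  have hSP : S.card ≤ (P.filter (fun p => cd p ∈ S)).card := by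
    refine le_trans (card_le_card (t := (P.filter (fun p => cd p ∈ S)).image cd) ?_) card_image_le
    intro q hq
    have := hS1 hq
    rw [mem_image] at this
    obtain ⟨c, hc, rfl⟩ := this
    exact mem_image_of_mem _ (mem_filter.2 ⟨hc, hq⟩)
  obtain ⟨T, hT1, hT2⟩ := exists_subset_card_eq (hSn.trans hSP)
  refine ⟨T, hT1.trans (filter_subset _ _), hT2, ?_⟩
  intro a ha b hb c hc hab hac hbc hcoll
  have h1 := (mem_filter.1 (hT1 ha)).2
  have h2 := (mem_filter.1 (hT1 hb)).2
  have h3 := (mem_filter.1 (hT1 hc)).2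
  exact hS2 _ h1 _ h2 _ h3 (fun h => hab (cd_inj h)) (fun h => hac (cd_inj h)) (fun h => hbc (cd_inj h))
    (col_of_collinear hcoll)

lemma Forces.mono {n N M : ℕ} (h : Forces n N) (hNM : N ≤ M) : Forces n M :=
  fun P hP => h P (hNM.trans hP)

noncomputable def gpt (q : ℕ × ℕ) : EuclideanSpace ℝ (Fin 2) := !₂[(q.1 : ℝ), (q.2 : ℝ)]

lemma gpt0 (q : ℕ × ℕ) : gpt q 0 = (q.1 : ℝ) := by simp [gpt]
lemma gpt1 (q : ℕ × ℕ) : gpt q 1 = (q.2 : ℝ) := by simp [gpt]

lemma gpt_inj : Function.Injective gpt := by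
  intro p q h
  have h0 := congrArg (fun v : EuclideanSpace ℝ (Fin 2) => v 0) h
  have h1 := congrArg (fun v : EuclideanSpace ℝ (Fin 2) => v 1) h
  simp only [gpt0, gpt1] at h0 h1
  apply Prod.ext
  · exact_mod_cast h0
  · exact_mod_cast h1

noncomputable def grid (m : ℕ) : Finset (EuclideanSpace ℝ (Fin 2)) := (range m ×ˢ range m).image gpt

lemma grid_card (m : ℕ) : (grid m).card = m ^ 2 := by
  unfold grid
  rw [card_image_of_injective _ gpt_inj, card_product, card_range, sq]

lemma grid_coord {m : ℕ} {p : EuclideanSpace ℝ (Fin 2)} (hp : p ∈ grid m) :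
    p 0 ∈ (range m).image (fun i : ℕ => (i : ℝ)) ∧ p 1 ∈ (range m).image (fun i : ℕ => (i : ℝ)) := by
  unfold grid at hp
  rw [mem_image] at hp
  obtain ⟨q, hq, rfl⟩ := hp
  rw [mem_product] at hq
  rw [gpt0, gpt1]
  exact ⟨mem_image_of_mem _ hq.1, mem_image_of_mem _ hq.2⟩

lemma grid_collinear {m : ℕ} {S : Finset (EuclideanSpace ℝ (Fin 2))} (hS : S ⊆ grid m)
    (hc : Collinear ℝ (S : Set (EuclideanSpace ℝ (Fin 2)))) : S.card ≤ m := by
  rcases S.eq_empty_or_nonempty with h0 | ⟨p0, hp0⟩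
  · rw [h0]; simp
  rw [collinear_iff_of_mem (p₀ := p0) (by exact_mod_cast hp0)] at hc
  obtain ⟨v, hv⟩ := hc
  have him : ((range m).image (fun i : ℕ => (i : ℝ))).card ≤ m := by
    refine card_image_le.trans ?_
    rw [card_range]
  by_cases hv0 : v 0 = 0
  · refine le_trans (card_le_card_of_injOn (fun p => p 1) ?_ ?_) him
    · intro p hp
      exact (grid_coord (hS (mem_coe.1 hp))).2
    · intro p hp q hq hpq
      simp only at hpq
      obtain ⟨r, hr⟩ := hv p hp
      obtain ⟨s, hs⟩ := hv q hq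
      ext i
      fin_cases i
      · simp only [Fin.zero_eta]
        rw [hr, hs]
        simp [hv0]
      · exact hpq
  · refine le_trans (card_le_card_of_injOn (fun p => p 0) ?_ ?_) him
    · intro p hp
      exact (grid_coord (hS (mem_coe.1 hp))).1
    · intro p hp q hq hpq
      simp only at hpq
      obtain ⟨r, hr⟩ := hv p hp
      obtain ⟨s, hs⟩ := hv q hq
      have e1 : p 0 = r * v 0 + p0 0 := by rw [hr]; simp
      have e2 : q 0 = s * v 0 + p0 0 := by rw [hs]; simp
      have e3 : r = s := by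
        have : (r - s) * v 0 = 0 := by linarith
        rcases mul_eq_zero.1 this with h | h
        · linarith
        · exact absurd h hv0
      rw [hr, hs, e3]

open Pool.Agent.Helper64.Gow in
lemma grid_genpos {m : ℕ} {S : Finset (EuclideanSpace ℝ (Fin 2))} (hS : S ⊆ grid m)
    (hc : GenPos S) : S.card ≤ 2 * m := by
  have h1 : S.card = ∑ y ∈ (range m).image (fun i : ℕ => (i : ℝ)), (S.filter (fun p => p 1 = y)).card :=
    card_eq_sum_card_fiberwise (fun p hp => (grid_coord (hS (mem_coe.1 hp))).2)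
  rw [h1]
  calc ∑ y ∈ (range m).image (fun i : ℕ => (i : ℝ)), (S.filter (fun p => p 1 = y)).card
      ≤ ∑ y ∈ (range m).image (fun i : ℕ => (i : ℝ)), 2 := by
        apply sum_le_sum
        intro y _
        by_contra hcon
        push Not at hcon
        obtain ⟨a, ha, b, hb, c, hc', hab, hac, hbc⟩ := two_lt_card.1 hcon
        rw [mem_filter] at ha hb hc'
        apply hc a ha.1 b hb.1 c hc'.1 hab hac hbc
        apply collinear_of_col hab (by simp)
        intro z hz
        simp only [Set.mem_insert_iff, Set.mem_singleton_iff] at hz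
        have hz1 : z 1 = y := by
          rcases hz with rfl | rfl | rfl
          · exact ha.2
          · exact hb.2
          · exact hc'.2
        unfold col cd
        simp only
        rw [ha.2, hb.2, hz1]
        ring
    _ ≤ 2 * m := by
        rw [sum_const, smul_eq_mul, mul_comm]
        apply Nat.mul_le_mul_left
        refine card_image_le.trans ?_
        rw [card_range]

lemma lower {n : ℕ} (hn : 1 ≤ n) : ¬ Forces n (((n - 1) / 2) ^ 2) := by
  intro h
  set m := (n - 1) / 2 with hm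
  rcases h (grid m) (by rw [grid_card]) with ⟨S, hS, hSn, hc⟩ | ⟨S, hS, hSn, hc⟩
  · have := grid_collinear hS hc
    omega
  · have := grid_genpos hS hc
    omega

/-- **Gowers's problem, order of magnitude.** The function `f n` is of order exactly `n ^ 2`. -/
theorem result : ∃ c C : ℝ, 0 < c ∧ 0 < C ∧ ∀ n : ℕ, 3 ≤ n →
    Forces n (f n) ∧ c * (n : ℝ) ^ 2 ≤ (f n : ℝ) ∧ (f n : ℝ) ≤ C * (n : ℝ) ^ 2 := by
  obtain ⟨C, hC⟩ := upper
  refine ⟨1 / 36, (C : ℝ) + 1, by norm_num, by positivity, ?_⟩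
  intro n hn
  have hne : {N | Forces n N}.Nonempty := ⟨C * n ^ 2, hC n (by omega)⟩
  have hf : Forces n (f n) := Nat.sInf_mem hne
  refine ⟨hf, ?_, ?_⟩
  · have h1 : ((n - 1) / 2) ^ 2 < f n := by
      by_contra hcon
      push Not at hcon
      exact lower (by omega) (hf.mono hcon)
    have h2 : n ≤ 6 * ((n - 1) / 2) := by omega
    have h3 : n ^ 2 ≤ 36 * ((n - 1) / 2) ^ 2 := by
      calc n ^ 2 ≤ (6 * ((n - 1) / 2)) ^ 2 := Nat.pow_le_pow_left h2 2
        _ = 36 * ((n - 1) / 2) ^ 2 := by ring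
    have h4 : n ^ 2 ≤ 36 * f n := by omega
    have h5 : (n : ℝ) ^ 2 ≤ 36 * (f n : ℝ) := by exact_mod_cast h4
    linarith
  · have h1 : f n ≤ C * n ^ 2 := Nat.sInf_le (hC n (by omega))
    have h2 : (f n : ℝ) ≤ C * (n : ℝ) ^ 2 := by exact_mod_cast h1
    have h3 : (0 : ℝ) ≤ (n : ℝ) ^ 2 := by positivity
    linarith

end Pool.Agent.Results.MP_0c755a_co.QuadraticOrder
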